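import Pool.Agent.L0h99.MN.Stm2

/-!
# MD/IDU: a `K_6` minor of an induced subgraph is one of the graph
-/

set_option autoImplicit false

namespace Pool.Agent.L0h96.MD

open Finset Pool.Agent.L0h99.MN Pool.Agent.L0h99.MD

theorem Cn_image {V V' : Type} [Fintype V] [DecidableEq V] [Fintype V'] [DecidableEq V']
    (f : V' → V) (G : SimpleGraph V) (A : Finset V') (h : Cn (G.comap f) A) : Cn G (A.image f) := by
  obtain ⟨h1, h2⟩ := h
  refine ⟨h1.image f, fun X hX hn hne => ?_⟩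
  obtain ⟨a, ha, b, hb, hab⟩ := h2 (A.filter (fun a => f a ∈ X)) (filter_subset _ _) (by
    obtain ⟨x, hx⟩ := hn
    obtain ⟨a, ha, rfl⟩ := mem_image.1 (hX hx)
    exact ⟨a, mem_filter.2 ⟨ha, hx⟩⟩) (fun he => hne (Subset.antisymm hX (fun y hy => by
      obtain ⟨a, ha, rfl⟩ := mem_image.1 hy
      rw [← he] at ha
      exact (mem_filter.1 ha).2)))
  obtain ⟨ha1, ha2⟩ := mem_filter.1 ha
  obtain ⟨hb1, hb2⟩ := mem_sdiff.1 hb
  exact ⟨f a, ha2, f b, mem_sdiff.2 ⟨mem_image_of_mem f hb1, fun h => hb2 (mem_filter.2 ⟨hb1, h⟩)⟩,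
    hab⟩

theorem IDU : St_IDU := by
  intro V V' _ _ _ _ f G hf ⟨B, hB, hd, he⟩
  refine ⟨fun i => (B i).image f, fun i => Cn_image f G (B i) (hB i), fun i j hij => ?_,
    fun i j hij => ?_⟩
  · exact (disjoint_image hf).2 (hd i j hij)
  · obtain ⟨x, hx, y, hy, hxy⟩ := he i j hij
    exact ⟨f x, mem_image_of_mem f hx, f y, mem_image_of_mem f hy, hxy⟩

end Pool.Agent.L0h96.MD
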